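import Pool.Agent.R731.AV.Spheres

/-!
# Every wedge of spheres is an avalanche complex (MP_fb4947_gt, Q1)
-/

set_option autoImplicit false

namespace Pool.Agent.Results.MP_fb4947_gt.AllWedges

open Pool.Agent.R731.AV

/-- For every finite wedge of spheres `S^{d_1} ∨ ⋯ ∨ S^{d_m}` (`m ≥ 0`, `d_i ≥ 0`) there are a
finite weakly connected digraph `G` without loops and a starting configuration `c₀` such that the
geometric realization of the avalanche complex `A(G, c₀)` is homotopy equivalent to the wedge. -/
theorem result (m : ℕ) (d : Fin m → ℕ) :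
    ∃ (V : Type) (_ : Fintype V) (G : Digraph V) (c₀ : V → ℕ), (∀ v, ¬ G.Adj v v) ∧
      (SimpleGraph.fromRel G.Adj).Connected ∧
      Nonempty (ContinuousMap.HomotopyEquiv (Avalanche G c₀) (Wedge d)) :=
  Pool.Agent.R731.AV.main m d

end Pool.Agent.Results.MP_fb4947_gt.AllWedges
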